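import Mathlib
import Pool.Agent.R863.A2.Mult
import Pool.Agent.R863.FinPts

/-!
# An irreducible plane curve with h-constant less than -2

The curve is the closure of the image of `t ↦ (t + t²¹ + t⁻²², t⁻¹ + t⁻²¹ + t²²)`; it has degree at
most 44 and at least 154 points of multiplicity at least 3 and 440 further singular points.
-/

set_option autoImplicit false

open MvPolynomial
open scoped LinearAlgebra.Projectivization

namespace Pool.Agent.Results.MP_81ecef_ag.BelowMinusTwo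

open Pool.Agent.R863 Pool.Agent.R863.A2 Pool.Agent.R863.Forms

/-- the iterated partial derivative `∂_{i₁} ⋯ ∂_{iₖ} f` for the list `[i₁, …, iₖ]` -/
noncomputable def der (l : List (Fin 3)) (f : MvPolynomial (Fin 3) ℂ) : MvPolynomial (Fin 3) ℂ :=
  l.foldr (fun i g => pderiv i g) f

/-- the multiplicity of the curve `f = 0` at the point with representing vector `x`: the least
order of a partial derivative of `f` (of order `0` for `f` itself) which does not vanish at `x` -/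
noncomputable def mult (f : MvPolynomial (Fin 3) ℂ) (x : Fin 3 → ℂ) : ℕ :=
  sInf {k | ∃ l : List (Fin 3), l.length = k ∧ eval x (der l f) ≠ 0}

/-- the set of the singular points of the curve `f = 0` in the projective plane -/
def Sing (f : MvPolynomial (Fin 3) ℂ) : Set (ℙ ℂ (Fin 3 → ℂ)) :=
  {P | eval P.rep f = 0 ∧ ∀ i, eval P.rep (pderiv i f) = 0}

/-- the h-constant of the curve `f = 0` -/
noncomputable def hConst (f : MvPolynomial (Fin 3) ℂ) : ℝ :=
  ((f.totalDegree : ℝ) ^ 2 - ∑ᶠ P ∈ Sing f, (mult f P.rep : ℝ) ^ 2) / ((Sing f).ncard : ℝ)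

lemma der_hom {f : MvPolynomial (Fin 3) ℂ} {d : ℕ} (hf : f.IsHomogeneous d)
    (l : List (Fin 3)) : (der l f).IsHomogeneous (d - l.length) := by
  induction l with
  | nil => simpa [der] using hf
  | cons i l ih =>
    have : der (i :: l) f = pderiv i (der l f) := rfl
    rw [this]
    have h := ih.pderiv (i := i)
    rw [List.length_cons]
    rw [Nat.sub_sub] at h
    exact h

lemma exists_der {d : ℕ} : ∀ {f : MvPolynomial (Fin 3) ℂ}, f.IsHomogeneous d → f ≠ 0 →
    ∀ x, ∃ l, eval x (der l f) ≠ 0 := by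
  induction d with
  | zero =>
    intro f hf hf0 x
    refine ⟨[], ?_⟩
    show eval x f ≠ 0
    rw [← totalDegree_zero_iff_isHomogeneous, totalDegree_eq_zero_iff_eq_C] at hf
    rw [hf] at hf0 ⊢
    rw [eval_C]
    intro h
    rw [h, C_0] at hf0
    exact hf0 rfl
  | succ d ih =>
    intro f hf hf0 x
    obtain ⟨i, hi⟩ : ∃ i, pderiv i f ≠ 0 := by
      by_contra hall
      push Not at hall
      have h := hf.sum_X_mul_pderiv
      simp only [hall, mul_zero, Finset.sum_const_zero] at h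
      have h1 : (d + 1) • f ≠ 0 := smul_ne_zero (Nat.succ_ne_zero d) hf0
      exact h1 h.symm
    have hp := hf.pderiv (i := i)
    rw [Nat.add_sub_cancel] at hp
    obtain ⟨l, hl⟩ := ih hp hi x
    refine ⟨l ++ [i], ?_⟩
    have : der (l ++ [i]) f = der l (pderiv i f) := by
      unfold der
      rw [List.foldr_append]
      rfl
    rw [this]
    exact hl

lemma le_mult {f : MvPolynomial (Fin 3) ℂ} {d : ℕ} (hf : f.IsHomogeneous d) (hf0 : f ≠ 0)
    {x : Fin 3 → ℂ} {k : ℕ} (h : ∀ l : List (Fin 3), l.length < k → eval x (der l f) = 0) :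
    k ≤ mult f x := by
  unfold mult
  apply le_csInf
  · obtain ⟨l, hl⟩ := exists_der hf hf0 x
    exact ⟨_, l, rfl, hl⟩
  · rintro m ⟨l, hl, hne⟩
    by_contra hlt
    push Not at hlt
    exact hne (h l (by omega))

/-! ### The points -/

lemma pt_ne (t : ℂ) : pt t ≠ 0 := by
  intro h
  have := congrFun h 2
  simp [pt] at this

/-- the point with parameter `t` of the projective plane -/
noncomputable def Pt (t : ℂ) : ℙ ℂ (Fin 3 → ℂ) := Projectivization.mk ℂ (pt t) (pt_ne t)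

lemma Pt_rep {f : MvPolynomial (Fin 3) ℂ} {d : ℕ} (hf : f.IsHomogeneous d) {t : ℂ}
    (h : eval (pt t) f = 0) : eval (Pt t).rep f = 0 := by
  obtain ⟨a, ha⟩ := Projectivization.exists_smul_eq_mk_rep ℂ (pt t) (pt_ne t)
  unfold Pt
  rw [← ha]
  have : a • pt t = (a : ℂ) • pt t := rfl
  rw [this, eval_smul hf, h, mul_zero]

lemma Pt_inj {t s : ℂ} (h : Pt t = Pt s) : pt t = pt s := by
  unfold Pt at h
  rw [Projectivization.mk_eq_mk_iff'] at h
  obtain ⟨a, ha⟩ := h
  have h2 := congrFun ha 2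
  have : a = 1 := by simpa [pt] using h2
  rw [this, one_smul] at ha
  exact ha.symm

lemma param_of_eq {t s : ℂ} (ht : t ≠ 0) (hs : s ≠ 0) (h : pt t = pt s) :
    s = t ∨ s = t ^ 21 ∨ s = (t ^ 22)⁻¹ := by
  have h0 := congrFun h 0
  have h1 := congrFun h 1
  have ht0 : pt t 0 = e1 (lam t) := rfl
  have ht1 : pt t 1 = e2 (lam t) := rfl
  have hs0 : pt s 0 = e1 (lam s) := rfl
  have hs1 : pt s 1 = e2 (lam s) := rfl
  rw [ht0, hs0] at h0
  rw [ht1, hs1] at h1
  have et := e3_lam ht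
  have es := e3_lam hs
  have key : (s - lam t 0) * ((s - lam t 1) * (s - lam t 2)) = 0 := by
    have hss : (s - lam s 0) * ((s - lam s 1) * (s - lam s 2)) = 0 := by
      have : lam s 0 = s := rfl
      rw [this, sub_self, zero_mul]
    unfold e1 at h0
    unfold e2 at h1
    unfold e3 at et es
    linear_combination hss - s ^ 2 * h0 + s * h1 - et + es
  have l0 : lam t 0 = t := rfl
  have l1 : lam t 1 = t ^ 21 := rfl
  have l2 : lam t 2 = (t ^ 22)⁻¹ := rfl
  rw [l0, l1, l2] at key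
  rcases mul_eq_zero.1 key with h | h
  · exact Or.inl (sub_eq_zero.1 h)
  · rcases mul_eq_zero.1 h with h | h
    · exact Or.inr (Or.inl (sub_eq_zero.1 h))
    · exact Or.inr (Or.inr (sub_eq_zero.1 h))

lemma one_of_coprime {x : ℂ} {m n : ℕ} (hm : x ^ m = 1) (hn : x ^ n = 1)
    (h : Nat.Coprime m n) : x = 1 := by
  have h1 : orderOf x ∣ Nat.gcd m n :=
    Nat.dvd_gcd (orderOf_dvd_of_pow_eq_one hm) (orderOf_dvd_of_pow_eq_one hn)
  rw [h] at h1
  exact orderOf_eq_one_iff.1 (Nat.dvd_one.1 h1)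

lemma ne_zero_of_pow {x : ℂ} {m : ℕ} (hm0 : m ≠ 0) (hm : x ^ m = 1) : x ≠ 0 := by
  rintro rfl
  rw [zero_pow hm0] at hm
  exact zero_ne_one hm

/-- the three eigenvalues are different -/
lemma distinct {t : ℂ} {m : ℕ} (hm0 : m ≠ 0) (hm : t ^ m = 1) (h20 : t ^ 20 ≠ 1)
    (h23 : t ^ 23 ≠ 1) (h43 : t ^ 43 ≠ 1) :
    t ≠ t ^ 21 ∧ t ^ 21 ≠ (t ^ 22)⁻¹ ∧ (t ^ 22)⁻¹ ≠ t := by
  have ht := ne_zero_of_pow hm0 hm
  refine ⟨?_, ?_, ?_⟩
  · intro h
    apply h20
    have : t * (t ^ 20 - 1) = 0 := by linear_combination -h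
    exact sub_eq_zero.1 ((mul_eq_zero.1 this).resolve_left ht)
  · intro h
    apply h43
    have : t ^ 21 * t ^ 22 = 1 := by
      rw [h]
      field_simp
    rw [← this]
    ring
  · intro h
    apply h23
    have : t * t ^ 22 = 1 := by
      nth_rewrite 1 [← h]
      field_simp
    rw [← this]
    ring

section

variable {E : MvPolynomial (Fin 3) ℂ} {d : ℕ} (hE : E.IsHomogeneous d) (hE0 : E ≠ 0)
  (hEu : aeval u E = 0)

include hE hEu

lemma sing_of {t : ℂ} (ht : t ≠ 0) (hg : ∀ i, eval (pt t) (pderiv i E) = 0) : Pt t ∈ Sing E :=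
  ⟨Pt_rep hE (E_pt hE hEu ht), fun i => Pt_rep hE.pderiv (hg i)⟩

/-- first type: triple points -/
lemma typeA {t : ℂ} (h : t ^ 463 = 1) (h1 : t ≠ 1) :
    (∀ i, eval (pt t) (pderiv i E) = 0) ∧ ∀ i j, eval (pt t) (pderiv i (pderiv j E)) = 0 := by
  have ht := ne_zero_of_pow (by norm_num) h
  have hcop : ∀ n : ℕ, Nat.Coprime 463 n → t ^ n ≠ 1 := fun n hn hn' =>
    h1 (one_of_coprime h hn' hn)
  obtain ⟨d1, d2, d3⟩ := distinct (by norm_num) h (hcop 20 (by norm_num)) (hcop 23 (by norm_num))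
    (hcop 43 (by norm_num))
  obtain ⟨a, ha⟩ : ∃ a, a = t := ⟨_, rfl⟩
  obtain ⟨b, hb⟩ : ∃ b, b = t ^ 21 := ⟨_, rfl⟩
  obtain ⟨c, hc⟩ : ∃ c, c = (t ^ 22)⁻¹ := ⟨_, rfl⟩
  have hb0 : b ≠ 0 := by rw [hb]; exact pow_ne_zero _ ht
  have hc0 : c ≠ 0 := by rw [hc]; exact inv_ne_zero (pow_ne_zero _ ht)
  have hb1 : b ^ 21 = c := by
    rw [hb, hc]
    symm
    apply inv_eq_of_mul_eq_one_right
    rw [← h]; ring
  have hb2 : (b ^ 22)⁻¹ = a := by
    rw [hb, ha]
    apply inv_eq_of_mul_eq_one_right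
    rw [← h]; ring
  have hc1 : c ^ 21 = a := by
    rw [hc, ha, inv_pow]
    apply inv_eq_of_mul_eq_one_right
    rw [← h]; ring
  have hc2 : (c ^ 22)⁻¹ = b := by
    have e : (t ^ 22) ^ 22 = t ^ 463 * t ^ 21 := by ring
    rw [hc, hb, inv_pow, inv_inv, e, h, one_mul]
  obtain ⟨vt1, vt2⟩ := velocity ht ha.symm hb.symm hc.symm
  obtain ⟨vb1, vb2⟩ := velocity hb0 rfl hb1 hb2
  obtain ⟨vc1, vc2⟩ := velocity hc0 rfl hc1 hc2
  have pt1 := pt_eq ha.symm hb.symm hc.symm
  have pb1 := pt_eq rfl hb1 hb2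
  have pc1 := pt_eq rfl hc1 hc2
  have ptb : pt t = pt b := by
    rw [pt1, pb1]
    congr 1
    · ring
    · congr 1
      ring
  have ptc : pt t = pt c := by
    rw [pt1, pc1]
    congr 1
    · ring
    · congr 1
      ring
  have hab : a - b ≠ 0 := sub_ne_zero.2 (by rw [ha, hb]; exact d1)
  have hbc : b - c ≠ 0 := sub_ne_zero.2 (by rw [hb, hc]; exact d2)
  have hca : c - a ≠ 0 := sub_ne_zero.2 (by rw [hc, ha]; exact d3)
  have hΔ : 463 * ((a - b) * ((b - c) * (c - a))) ≠ 0 :=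
    mul_ne_zero (by norm_num) (mul_ne_zero hab (mul_ne_zero hbc hca))
  have h12 : VX t * VY b - VX b * VY t ≠ 0 := by
    rw [vt1, vt2, vb1, vb2]
    intro h0
    apply hΔ
    linear_combination (-1 : ℂ) * h0
  have h13 : VX t * VY c - VX c * VY t ≠ 0 := by
    rw [vt1, vt2, vc1, vc2]
    intro h0
    apply hΔ
    linear_combination h0
  have h23 : VX b * VY c - VX c * VY b ≠ 0 := by
    rw [vb1, vb2, vc1, vc2]
    intro h0
    apply hΔ
    linear_combination (-1 : ℂ) * h0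
  exact ⟨node hE hEu ht hb0 ptb h12, triple hE hEu ht hb0 hc0 ptb ptc h12 h13 h23⟩

/-- second type: double points with parameters `t`, `t ^ 21` -/
lemma typeB {t : ℂ} (h : t ^ 440 = 1) (h1 : t ^ 20 ≠ 1) :
    ∀ i, eval (pt t) (pderiv i E) = 0 := by
  have ht := ne_zero_of_pow (by norm_num) h
  have ht1 : t ≠ 1 := by rintro rfl; exact h1 (one_pow _)
  have hcop : ∀ n : ℕ, Nat.Coprime 440 n → t ^ n ≠ 1 := fun n hn hn' =>
    ht1 (one_of_coprime h hn' hn)
  obtain ⟨d1, d2, d3⟩ := distinct (by norm_num) h h1 (hcop 23 (by norm_num))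
    (hcop 43 (by norm_num))
  obtain ⟨a, ha⟩ : ∃ a, a = t := ⟨_, rfl⟩
  obtain ⟨b, hb⟩ : ∃ b, b = t ^ 21 := ⟨_, rfl⟩
  obtain ⟨c, hc⟩ : ∃ c, c = (t ^ 22)⁻¹ := ⟨_, rfl⟩
  have hb0 : b ≠ 0 := by rw [hb]; exact pow_ne_zero _ ht
  have hb1 : b ^ 21 = a := by
    have e : (t ^ 21) ^ 21 = t ^ 440 * t := by ring
    rw [hb, ha, e, h, one_mul]
  have hb2 : (b ^ 22)⁻¹ = c := by
    have e : (t ^ 21) ^ 22 = t ^ 440 * t ^ 22 := by ring
    rw [hb, hc, e, h, one_mul]
  obtain ⟨vt1, vt2⟩ := velocity ht ha.symm hb.symm hc.symm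
  obtain ⟨vb1, vb2⟩ := velocity hb0 rfl hb1 hb2
  have pt1 := pt_eq ha.symm hb.symm hc.symm
  have pb1 := pt_eq rfl hb1 hb2
  have ptb : pt t = pt b := by
    rw [pt1, pb1]
    congr 1
    · ring
    · congr 1
      ring
  have hab : a - b ≠ 0 := sub_ne_zero.2 (by rw [ha, hb]; exact d1)
  have hbc : b - c ≠ 0 := sub_ne_zero.2 (by rw [hb, hc]; exact d2)
  have hca : c - a ≠ 0 := sub_ne_zero.2 (by rw [hc, ha]; exact d3)
  have hΔ : 440 * ((a - b) * ((b - c) * (c - a))) ≠ 0 :=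
    mul_ne_zero (by norm_num) (mul_ne_zero hab (mul_ne_zero hbc hca))
  have h12 : VX t * VY b - VX b * VY t ≠ 0 := by
    rw [vt1, vt2, vb1, vb2]
    intro h0
    apply hΔ
    linear_combination h0
  exact node hE hEu ht hb0 ptb h12

/-- third type: double points with parameters `t`, `t ^ (-22)` -/
lemma typeC {t : ℂ} (h : t ^ 483 = 1) (h1 : t ^ 23 ≠ 1) :
    ∀ i, eval (pt t) (pderiv i E) = 0 := by
  have ht := ne_zero_of_pow (by norm_num) h
  have ht1 : t ≠ 1 := by rintro rfl; exact h1 (one_pow _)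
  have hcop : ∀ n : ℕ, Nat.Coprime 483 n → t ^ n ≠ 1 := fun n hn hn' =>
    ht1 (one_of_coprime h hn' hn)
  obtain ⟨d1, d2, d3⟩ := distinct (by norm_num) h (hcop 20 (by norm_num)) h1
    (hcop 43 (by norm_num))
  obtain ⟨a, ha⟩ : ∃ a, a = t := ⟨_, rfl⟩
  obtain ⟨b, hb⟩ : ∃ b, b = t ^ 21 := ⟨_, rfl⟩
  obtain ⟨c, hc⟩ : ∃ c, c = (t ^ 22)⁻¹ := ⟨_, rfl⟩
  have hc0 : c ≠ 0 := by rw [hc]; exact inv_ne_zero (pow_ne_zero _ ht)
  have hc1 : c ^ 21 = b := by
    rw [hc, hb, inv_pow]
    apply inv_eq_of_mul_eq_one_right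
    rw [← h]; ring
  have hc2 : (c ^ 22)⁻¹ = a := by
    have e : (t ^ 22) ^ 22 = t ^ 483 * t := by ring
    rw [hc, ha, inv_pow, inv_inv, e, h, one_mul]
  obtain ⟨vt1, vt2⟩ := velocity ht ha.symm hb.symm hc.symm
  obtain ⟨vc1, vc2⟩ := velocity hc0 rfl hc1 hc2
  have pt1 := pt_eq ha.symm hb.symm hc.symm
  have pc1 := pt_eq rfl hc1 hc2
  have ptc : pt t = pt c := by
    rw [pt1, pc1]
    congr 1
    · ring
    · congr 1
      ring
  have hab : a - b ≠ 0 := sub_ne_zero.2 (by rw [ha, hb]; exact d1)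
  have hbc : b - c ≠ 0 := sub_ne_zero.2 (by rw [hb, hc]; exact d2)
  have hca : c - a ≠ 0 := sub_ne_zero.2 (by rw [hc, ha]; exact d3)
  have hΔ : 483 * ((a - b) * ((b - c) * (c - a))) ≠ 0 :=
    mul_ne_zero (by norm_num) (mul_ne_zero hab (mul_ne_zero hbc hca))
  have h12 : VX t * VY c - VX c * VY t ≠ 0 := by
    rw [vt1, vt2, vc1, vc2]
    intro h0
    apply hΔ
    linear_combination (-1 : ℂ) * h0
  exact node hE hEu ht hc0 ptc h12

end

/-! ### Counting the points -/

/-- parameters of the first type -/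
noncomputable def SA : Finset ℂ := (Polynomial.nthRootsFinset 463 (1 : ℂ)).erase 1
/-- parameters of the second type -/
noncomputable def SB : Finset ℂ :=
  Polynomial.nthRootsFinset 440 (1 : ℂ) \ Polynomial.nthRootsFinset 20 (1 : ℂ)
/-- parameters of the third type -/
noncomputable def SC : Finset ℂ :=
  Polynomial.nthRootsFinset 483 (1 : ℂ) \ Polynomial.nthRootsFinset 23 (1 : ℂ)

lemma mem_SA {t : ℂ} : t ∈ SA ↔ t ^ 463 = 1 ∧ t ≠ 1 := by
  unfold SA
  rw [Finset.mem_erase, Polynomial.mem_nthRootsFinset (by norm_num), and_comm]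

lemma mem_SB {t : ℂ} : t ∈ SB ↔ t ^ 440 = 1 ∧ t ^ 20 ≠ 1 := by
  unfold SB
  rw [Finset.mem_sdiff, Polynomial.mem_nthRootsFinset (by norm_num),
    Polynomial.mem_nthRootsFinset (by norm_num)]

lemma mem_SC {t : ℂ} : t ∈ SC ↔ t ^ 483 = 1 ∧ t ^ 23 ≠ 1 := by
  unfold SC
  rw [Finset.mem_sdiff, Polynomial.mem_nthRootsFinset (by norm_num),
    Polynomial.mem_nthRootsFinset (by norm_num)]

lemma card_roots (n : ℕ) (hn : n ≠ 0) : (Polynomial.nthRootsFinset n (1 : ℂ)).card = n :=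
  (Complex.isPrimitiveRoot_exp n hn).card_nthRootsFinset

lemma card_SA : SA.card = 462 := by
  unfold SA
  rw [Finset.card_erase_of_mem, card_roots 463 (by norm_num)]
  rw [Polynomial.mem_nthRootsFinset (by norm_num)]
  exact one_pow _

lemma card_SB : SB.card = 420 := by
  unfold SB
  rw [Finset.card_sdiff_of_subset, card_roots 440 (by norm_num), card_roots 20 (by norm_num)]
  intro t ht
  rw [Polynomial.mem_nthRootsFinset (by norm_num)] at ht ⊢
  have e : t ^ 440 = (t ^ 20) ^ 22 := by ring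
  rw [e, ht, one_pow]

lemma card_SC : SC.card = 460 := by
  unfold SC
  rw [Finset.card_sdiff_of_subset, card_roots 483 (by norm_num), card_roots 23 (by norm_num)]
  intro t ht
  rw [Polynomial.mem_nthRootsFinset (by norm_num)] at ht ⊢
  have e : t ^ 483 = (t ^ 23) ^ 21 := by ring
  rw [e, ht, one_pow]

open Classical in
lemma card_PA : 154 ≤ (SA.image Pt).card := by
  have h : SA.card ≤ 3 * (SA.image Pt).card := by
    apply Finset.card_le_mul_card_image
    intro P hP
    obtain ⟨t, ht, rfl⟩ := Finset.mem_image.1 hP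
    have hsub : (SA.filter fun s => Pt s = Pt t) ⊆ {t, t ^ 21, (t ^ 22)⁻¹} := by
      intro s hs
      rw [Finset.mem_filter] at hs
      have h0 := ne_zero_of_pow (by norm_num) (mem_SA.1 ht).1
      have h1 := ne_zero_of_pow (by norm_num) (mem_SA.1 hs.1).1
      rcases param_of_eq h0 h1 (Pt_inj hs.2).symm with h | h | h <;> simp [← h]
    exact (Finset.card_le_card hsub).trans Finset.card_le_three
  rw [card_SA] at h
  omega

open Classical in
lemma card_PB : 210 ≤ (SB.image Pt).card := by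
  have h : SB.card ≤ 2 * (SB.image Pt).card := by
    apply Finset.card_le_mul_card_image
    intro P hP
    obtain ⟨t, ht, rfl⟩ := Finset.mem_image.1 hP
    have hsub : (SB.filter fun s => Pt s = Pt t) ⊆ {t, t ^ 21} := by
      intro s hs
      rw [Finset.mem_filter] at hs
      have h0 := ne_zero_of_pow (by norm_num) (mem_SB.1 ht).1
      have h1 := ne_zero_of_pow (by norm_num) (mem_SB.1 hs.1).1
      rcases param_of_eq h0 h1 (Pt_inj hs.2).symm with h | h | h
      · simp [← h]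
      · simp [← h]
      · exfalso
        apply (mem_SB.1 hs.1).2
        rw [h, inv_pow]
        have e : (t ^ 22) ^ 20 = t ^ 440 := by ring
        rw [e, (mem_SB.1 ht).1, inv_one]
    exact (Finset.card_le_card hsub).trans Finset.card_le_two
  rw [card_SB] at h
  omega

open Classical in
lemma card_PC : 230 ≤ (SC.image Pt).card := by
  have h : SC.card ≤ 2 * (SC.image Pt).card := by
    apply Finset.card_le_mul_card_image
    intro P hP
    obtain ⟨t, ht, rfl⟩ := Finset.mem_image.1 hP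
    have hsub : (SC.filter fun s => Pt s = Pt t) ⊆ {t, (t ^ 22)⁻¹} := by
      intro s hs
      rw [Finset.mem_filter] at hs
      have h0 := ne_zero_of_pow (by norm_num) (mem_SC.1 ht).1
      have h1 := ne_zero_of_pow (by norm_num) (mem_SC.1 hs.1).1
      rcases param_of_eq h0 h1 (Pt_inj hs.2).symm with h | h | h
      · simp [← h]
      · exfalso
        apply (mem_SC.1 hs.1).2
        rw [h]
        have e : (t ^ 21) ^ 23 = t ^ 483 := by ring
        rw [e, (mem_SC.1 ht).1]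
      · simp [← h]
    exact (Finset.card_le_card hsub).trans Finset.card_le_two
  rw [card_SC] at h
  omega

/-- if `P` has parameters `t`, `s` of orders dividing `m`, `n`, coprime, then `s = 1` -/
lemma param_coprime {t s : ℂ} {m n : ℕ} (hm0 : m ≠ 0) (hn0 : n ≠ 0) (hm : t ^ m = 1)
    (hn : s ^ n = 1) (hmn : Nat.Coprime m n) (h : Pt t = Pt s) : s = 1 := by
  have ht := ne_zero_of_pow hm0 hm
  have hs := ne_zero_of_pow hn0 hn
  have hsm : s ^ m = 1 := by
    rcases param_of_eq ht hs (Pt_inj h) with h | h | h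
    · rw [h, hm]
    · rw [h, ← pow_mul, mul_comm, pow_mul, hm, one_pow]
    · rw [h, inv_pow, ← pow_mul, mul_comm, pow_mul, hm, one_pow, inv_one]
  exact one_of_coprime hsm hn hmn

open Classical in
lemma disj_AB : Disjoint (SA.image Pt) (SB.image Pt) := by
  rw [Finset.disjoint_left]
  intro P hA hB
  obtain ⟨t, ht, rfl⟩ := Finset.mem_image.1 hA
  obtain ⟨s, hs, hst⟩ := Finset.mem_image.1 hB
  have h := param_coprime (by norm_num) (by norm_num) (mem_SA.1 ht).1 (mem_SB.1 hs).1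
    (by norm_num) hst.symm
  exact (mem_SB.1 hs).2 (by rw [h, one_pow])

open Classical in
lemma disj_AC : Disjoint (SA.image Pt) (SC.image Pt) := by
  rw [Finset.disjoint_left]
  intro P hA hB
  obtain ⟨t, ht, rfl⟩ := Finset.mem_image.1 hA
  obtain ⟨s, hs, hst⟩ := Finset.mem_image.1 hB
  have h := param_coprime (by norm_num) (by norm_num) (mem_SA.1 ht).1 (mem_SC.1 hs).1
    (by norm_num) hst.symm
  exact (mem_SC.1 hs).2 (by rw [h, one_pow])

open Classical in
lemma disj_BC : Disjoint (SB.image Pt) (SC.image Pt) := by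
  rw [Finset.disjoint_left]
  intro P hA hB
  obtain ⟨t, ht, rfl⟩ := Finset.mem_image.1 hA
  obtain ⟨s, hs, hst⟩ := Finset.mem_image.1 hB
  have h := param_coprime (by norm_num) (by norm_num) (mem_SB.1 ht).1 (mem_SC.1 hs).1
    (by norm_num) hst.symm
  exact (mem_SC.1 hs).2 (by rw [h, one_pow])

/-- There is an irreducible singular plane curve over `ℂ` with h-constant less than `-2`. -/
theorem result : ∃ f : MvPolynomial (Fin 3) ℂ, Irreducible f ∧ (∃ d, f.IsHomogeneous d) ∧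
    (Sing f).Finite ∧ (Sing f).Nonempty ∧ hConst f < -2 := by
  classical
  obtain ⟨E, hirr, hhom, hdeg, hEu⟩ := A2.exists_E
  have hE0 : E ≠ 0 := hirr.ne_zero
  -- finiteness of the singular set
  have hfin : (Sing E).Finite := by
    obtain ⟨i, hi⟩ : ∃ i, pderiv i E ≠ 0 := by
      by_contra hall
      push Not at hall
      have h := hhom.sum_X_mul_pderiv
      simp only [hall, mul_zero, Finset.sum_const_zero] at h
      have h0 : E.totalDegree = 0 := by
        rcases smul_eq_zero.1 h.symm with h1 | h1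
        · exact h1
        · exact absurd h1 hE0
      rw [totalDegree_eq_zero_iff_eq_C] at h0
      rw [h0] at hE0 hirr
      apply hirr.not_isUnit
      refine (isUnit_iff_ne_zero.2 fun h1 => ?_).map C
      rw [h1, C_0] at hE0
      exact hE0 rfl
    have hnd : ¬ E ∣ pderiv i E := by
      intro hdvd
      obtain ⟨Q, hQ⟩ := hdvd
      have hQ0 : Q ≠ 0 := by
        rintro rfl
        rw [mul_zero] at hQ
        exact hi hQ
      have h1 := hhom.pderiv (i := i)
      have h2 := h1.totalDegree hi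
      have h3 := totalDegree_mul_of_isDomain hE0 hQ0
      rw [← hQ, h2] at h3
      have h4 : E.totalDegree = 0 := by omega
      rw [totalDegree_eq_zero_iff_eq_C] at h4
      rw [h4] at hi
      simp at hi
    refine (FinPts.finite_inter hirr hhom (hhom.pderiv (i := i)) hnd).subset ?_
    intro P hP
    exact ⟨hP.1, hP.2 i⟩
  -- the multiplicities
  have hm2 : ∀ P ∈ Sing E, 2 ≤ mult E P.rep := by
    intro P hP
    refine le_mult hhom hE0 fun l hl => ?_
    match l, hl with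
    | [], _ => exact hP.1
    | [i], _ => exact hP.2 i
    | _ :: _ :: _, hl => simp at hl
  have hA : ∀ P ∈ SA.image Pt, P ∈ Sing E ∧ 3 ≤ mult E P.rep := by
    intro P hP
    obtain ⟨t, ht, rfl⟩ := Finset.mem_image.1 hP
    obtain ⟨h1, h2⟩ := mem_SA.1 ht
    have ht0 := ne_zero_of_pow (by norm_num) h1
    obtain ⟨h3, h4⟩ := typeA hhom hEu h1 h2
    refine ⟨sing_of hhom hEu ht0 h3, le_mult hhom hE0 fun l hl => ?_⟩
    match l, hl with
    | [], _ => exact Pt_rep hhom (E_pt hhom hEu ht0)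
    | [i], _ => exact Pt_rep hhom.pderiv (h3 i)
    | [i, j], _ => exact Pt_rep hhom.pderiv.pderiv (h4 i j)
    | _ :: _ :: _ :: _, hl => simp at hl; omega
  have hB : ∀ P ∈ SB.image Pt, P ∈ Sing E := by
    intro P hP
    obtain ⟨t, ht, rfl⟩ := Finset.mem_image.1 hP
    obtain ⟨h1, h2⟩ := mem_SB.1 ht
    exact sing_of hhom hEu (ne_zero_of_pow (by norm_num) h1) (typeB hhom hEu h1 h2)
  have hC : ∀ P ∈ SC.image Pt, P ∈ Sing E := by
    intro P hP
    obtain ⟨t, ht, rfl⟩ := Finset.mem_image.1 hP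
    obtain ⟨h1, h2⟩ := mem_SC.1 ht
    exact sing_of hhom hEu (ne_zero_of_pow (by norm_num) h1) (typeC hhom hEu h1 h2)
  set S := hfin.toFinset with hS
  have hmemS : ∀ P, P ∈ S ↔ P ∈ Sing E := fun P => hfin.mem_toFinset
  set T := SA.image Pt ∪ SB.image Pt ∪ SC.image Pt with hT
  have hTS : T ⊆ S := by
    intro P hP
    rw [hmemS]
    rw [hT, Finset.mem_union, Finset.mem_union] at hP
    rcases hP with (hP | hP) | hP
    · exact (hA P hP).1
    · exact hB P hP
    · exact hC P hP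
  have hpos : ∀ P ∈ S, (2 : ℝ) ≤ (mult E P.rep : ℝ) ^ 2 - 2 := by
    intro P hP
    have h1 : (2 : ℝ) ≤ (mult E P.rep : ℝ) := by exact_mod_cast hm2 P ((hmemS P).1 hP)
    nlinarith
  have hsum : (1958 : ℝ) ≤ ∑ P ∈ S, ((mult E P.rep : ℝ) ^ 2 - 2) := by
    have h1 : ∑ P ∈ T, ((mult E P.rep : ℝ) ^ 2 - 2) ≤ ∑ P ∈ S, ((mult E P.rep : ℝ) ^ 2 - 2) :=
      Finset.sum_le_sum_of_subset_of_nonneg hTS fun P hP _ => by
        have := hpos P hP
        linarith
    have hd1 : Disjoint (SA.image Pt ∪ SB.image Pt) (SC.image Pt) := by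
      rw [Finset.disjoint_union_left]
      exact ⟨disj_AC, disj_BC⟩
    rw [hT, Finset.sum_union hd1, Finset.sum_union disj_AB] at h1
    have a1 : (7 : ℝ) * (SA.image Pt).card ≤ ∑ P ∈ SA.image Pt, ((mult E P.rep : ℝ) ^ 2 - 2) := by
      rw [mul_comm, ← nsmul_eq_mul]
      apply Finset.card_nsmul_le_sum
      intro P hP
      have h2 : (3 : ℝ) ≤ (mult E P.rep : ℝ) := by exact_mod_cast (hA P hP).2
      nlinarith
    have a2 : (2 : ℝ) * (SB.image Pt).card ≤ ∑ P ∈ SB.image Pt, ((mult E P.rep : ℝ) ^ 2 - 2) := by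
      rw [mul_comm, ← nsmul_eq_mul]
      apply Finset.card_nsmul_le_sum
      intro P hP
      exact hpos P ((hmemS P).2 (hB P hP))
    have a3 : (2 : ℝ) * (SC.image Pt).card ≤ ∑ P ∈ SC.image Pt, ((mult E P.rep : ℝ) ^ 2 - 2) := by
      rw [mul_comm, ← nsmul_eq_mul]
      apply Finset.card_nsmul_le_sum
      intro P hP
      exact hpos P ((hmemS P).2 (hC P hP))
    have c1 : (154 : ℝ) ≤ (SA.image Pt).card := by exact_mod_cast card_PA
    have c2 : (210 : ℝ) ≤ (SB.image Pt).card := by exact_mod_cast card_PB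
    have c3 : (230 : ℝ) ≤ (SC.image Pt).card := by exact_mod_cast card_PC
    linarith
  have hSne : (Sing E).Nonempty := by
    by_contra hne
    rw [Set.not_nonempty_iff_eq_empty] at hne
    have : S = ∅ := by
      rw [hS]
      simpa using hne
    rw [this, Finset.sum_empty] at hsum
    norm_num at hsum
  refine ⟨E, hirr, ⟨_, hhom⟩, hfin, hSne, ?_⟩
  unfold hConst
  have hcard : ((Sing E).ncard : ℝ) = S.card := by
    rw [hS, Set.ncard_eq_toFinset_card _ hfin]
  have hcpos : (0 : ℝ) < S.card := by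
    rw [← hcard]
    exact_mod_cast (Set.ncard_pos hfin).2 hSne
  have hfs : ∑ᶠ P ∈ Sing E, (mult E P.rep : ℝ) ^ 2 = ∑ P ∈ S, (mult E P.rep : ℝ) ^ 2 := by
    rw [finsum_mem_eq_finite_toFinset_sum _ hfin]
  rw [hfs, hcard, div_lt_iff₀ hcpos]
  rw [Finset.sum_sub_distrib, Finset.sum_const, nsmul_eq_mul] at hsum
  have hd : (E.totalDegree : ℝ) ^ 2 ≤ 1936 := by
    have h1 : (E.totalDegree : ℝ) ≤ 44 := by exact_mod_cast hdeg
    have h2 : (0 : ℝ) ≤ (E.totalDegree : ℝ) := Nat.cast_nonneg _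
    nlinarith
  linarith

end Pool.Agent.Results.MP_81ecef_ag.BelowMinusTwo
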